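import Pool.Agent.H917R2.BP.Stm

set_option autoImplicit false

/-!
The scalar approximation `S_fej` (MP_68d413_an): `t_i = r^(2 i)`, `r = 1 + 1/M`, `i < 2 M^2`.
-/

open Filter Finset

noncomputable section

namespace H318R5.BP

/-- `1 / cosh (log y)`. -/
def hh (y : ℝ) : ℝ := 2 * y / (1 + y ^ 2)

/-- Telescoping function. -/
def gg (y : ℝ) : ℝ := y / (1 + y)

theorem hh_pos {y : ℝ} (hy : 0 < y) : 0 < hh y := by
  unfold hh; positivity

theorem hh_inv {y : ℝ} (hy : 0 < y) : hh y⁻¹ = hh y := by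
  unfold hh
  field_simp
  ring

theorem gg_nonneg {y : ℝ} (hy : 0 < y) : 0 ≤ gg y := by
  unfold gg; positivity

theorem gg_le_one {y : ℝ} (hy : 0 < y) : gg y ≤ 1 := by
  unfold gg
  rw [div_le_one (by positivity)]
  linarith

theorem gg_diff {r y : ℝ} (hr : 1 < r) (hy : 0 < y) :
    gg (y * r) - gg y = (r - 1) * y / ((1 + y * r) * (1 + y)) := by
  unfold gg
  have : 0 < r := by linarith
  field_simp
  ring

theorem hh_le {r y : ℝ} (hr : 1 < r) (hy : 0 < y) :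
    hh y ≤ 4 * r / (r - 1) * (gg (y * r) - gg y) := by
  rw [gg_diff hr hy]
  unfold hh
  have h0 : 0 < r := by linarith
  have h1 : 0 < r - 1 := by linarith
  have e : 4 * r / (r - 1) * ((r - 1) * y / ((1 + y * r) * (1 + y))) =
      4 * r * y / ((1 + y * r) * (1 + y)) := by
    field_simp
  rw [e, div_le_div_iff₀ (by positivity) (by positivity)]
  have h2 : (1 + y * r) * (1 + y) ≤ 2 * r * (1 + y ^ 2) := by
    nlinarith [sq_nonneg (y - 1), mul_pos hy h0, mul_pos hy h1, mul_pos h1 hy,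
      mul_nonneg h0.le (sq_nonneg (y - 1))]
  calc 2 * y * ((1 + y * r) * (1 + y)) ≤ 2 * y * (2 * r * (1 + y ^ 2)) :=
        mul_le_mul_of_nonneg_left h2 (by positivity)
    _ = 4 * r * y * (1 + y ^ 2) := by ring

theorem le_hh {r y : ℝ} (hr : 1 < r) (hy : 0 < y) :
    2 / (r - 1) * (gg (y * r) - gg y) ≤ hh y := by
  rw [gg_diff hr hy]
  unfold hh
  have h0 : 0 < r := by linarith
  have h1 : 0 < r - 1 := by linarith
  have e : 2 / (r - 1) * ((r - 1) * y / ((1 + y * r) * (1 + y))) =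
      2 * y / ((1 + y * r) * (1 + y)) := by
    field_simp
  rw [e]
  apply div_le_div_of_nonneg_left (by positivity) (by positivity)
  nlinarith [mul_pos hy h0, mul_pos hy hy, mul_pos (mul_pos hy hy) h1]

theorem sum_le {r : ℝ} (hr : 1 < r) {y : ℝ} (hy : 0 < y) (n : ℕ) :
    ∑ i ∈ range n, hh (y * r ^ i) ≤ 4 * r / (r - 1) := by
  have h0 : 0 < r := by linarith
  have h1 : 0 < r - 1 := by linarith
  have key : ∑ i ∈ range n, hh (y * r ^ i) ≤ 4 * r / (r - 1) * (gg (y * r ^ n) - gg y) := by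
    induction n with
    | zero => simp
    | succ n ih =>
      rw [sum_range_succ]
      have h2 := hh_le hr (mul_pos hy (pow_pos h0 n))
      have e : y * r ^ n * r = y * r ^ (n + 1) := by rw [pow_succ]; ring
      rw [e] at h2
      calc _ ≤ 4 * r / (r - 1) * (gg (y * r ^ n) - gg y) +
            4 * r / (r - 1) * (gg (y * r ^ (n + 1)) - gg (y * r ^ n)) := add_le_add ih h2
        _ = _ := by ring
  have h3 : gg (y * r ^ n) - gg y ≤ 1 := by
    have := gg_le_one (mul_pos hy (pow_pos h0 n))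
    have := gg_nonneg hy
    linarith
  calc _ ≤ _ := key
    _ ≤ 4 * r / (r - 1) * 1 := mul_le_mul_of_nonneg_left h3 (by positivity)
    _ = _ := mul_one _

theorem le_sum {r : ℝ} (hr : 1 < r) {y : ℝ} (hy : 0 < y) (n : ℕ) :
    2 / (r - 1) * (gg (y * r ^ n) - gg y) ≤ ∑ i ∈ range n, hh (y * r ^ i) := by
  have h0 : 0 < r := by linarith
  induction n with
  | zero => simp
  | succ n ih =>
    rw [sum_range_succ]
    have h2 := le_hh hr (mul_pos hy (pow_pos h0 n))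
    have e : y * r ^ n * r = y * r ^ (n + 1) := by rw [pow_succ]; ring
    rw [e] at h2
    calc _ = 2 / (r - 1) * (gg (y * r ^ n) - gg y) +
            2 / (r - 1) * (gg (y * r ^ (n + 1)) - gg (y * r ^ n)) := by ring
      _ ≤ _ := add_le_add ih h2

theorem sum_le' {r : ℝ} (hr : 1 < r) {w : ℝ} (hw : 0 < w) (n : ℕ) :
    ∑ j ∈ range n, hh (w / r ^ j) ≤ 4 * r / (r - 1) := by
  have h0 : 0 < r := by linarith
  have := sum_le hr (inv_pos.2 hw) n
  refine le_trans (le_of_eq (sum_congr rfl fun j _ => ?_)) this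
  rw [← hh_inv (div_pos hw (pow_pos h0 j)), inv_div, div_eq_inv_mul]

/-- The double sum. -/
def SS (n : ℕ) (r x : ℝ) : ℝ := ∑ j ∈ range n, ∑ i ∈ range n, hh (x / r ^ j * r ^ i)

theorem SS_nonneg {r : ℝ} (hr : 1 < r) {x : ℝ} (hx : 0 < x) (n : ℕ) : 0 ≤ SS n r x := by
  have h0 : 0 < r := by linarith
  exact sum_nonneg fun j _ => sum_nonneg fun i _ => (hh_pos (by positivity)).le

theorem SS_le {r : ℝ} (hr : 1 < r) {x : ℝ} (hx : 0 < x) (n : ℕ) :
    SS n r x ≤ n * (4 * r / (r - 1)) := by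
  have h0 : 0 < r := by linarith
  unfold SS
  calc _ ≤ ∑ j ∈ range n, 4 * r / (r - 1) := sum_le_sum fun j _ => sum_le hr (by positivity) n
    _ = _ := by rw [sum_const, card_range, nsmul_eq_mul]

theorem SS_shift {r : ℝ} (hr : 1 < r) {x : ℝ} (hx : 0 < x) (n : ℕ) :
    |SS n r (x * r) - SS n r x| ≤ 4 * r / (r - 1) := by
  have h0 : 0 < r := by linarith
  have e : SS n r (x * r) - SS n r x =
      ∑ j ∈ range n, hh (x * r ^ n / r ^ j) - ∑ j ∈ range n, hh (x / r ^ j) := by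
    unfold SS
    rw [← sum_sub_distrib, ← sum_sub_distrib]
    refine sum_congr rfl fun j _ => ?_
    have e1 : ∀ i, hh (x * r / r ^ j * r ^ i) = hh (x / r ^ j * r ^ (i + 1)) := fun i => by
      congr 1
      rw [pow_succ]
      ring
    simp only [e1]
    have e2 := sum_range_succ (fun i => hh (x / r ^ j * r ^ i)) n
    have e3 := sum_range_succ' (fun i => hh (x / r ^ j * r ^ i)) n
    have e4 : x / r ^ j * r ^ n = x * r ^ n / r ^ j := by ring
    rw [e4] at e2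
    simp only [pow_zero, mul_one] at e3
    linarith
  rw [e, abs_le]
  have h1 := sum_le' hr (mul_pos hx (pow_pos h0 n)) n
  have h2 := sum_le' hr hx n
  have h3 : 0 ≤ ∑ j ∈ range n, hh (x * r ^ n / r ^ j) :=
    sum_nonneg fun j _ => (hh_pos (by positivity)).le
  have h4 : 0 ≤ ∑ j ∈ range n, hh (x / r ^ j) :=
    sum_nonneg fun j _ => (hh_pos (by positivity)).le
  constructor <;> linarith

theorem SS_pow {r : ℝ} (hr : 1 < r) (n l : ℕ) :
    |SS n r (r ^ l) - SS n r 1| ≤ l * (4 * r / (r - 1)) := by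
  have h0 : 0 < r := by linarith
  induction l with
  | zero => simp
  | succ l ih =>
    have h1 := SS_shift hr (pow_pos h0 l) n
    rw [← pow_succ] at h1
    have h2 : SS n r (r ^ (l + 1)) - SS n r 1 = (SS n r (r ^ (l + 1)) - SS n r (r ^ l)) +
      (SS n r (r ^ l) - SS n r 1) := by ring
    rw [h2]
    calc _ ≤ |SS n r (r ^ (l + 1)) - SS n r (r ^ l)| + |SS n r (r ^ l) - SS n r 1| :=
          abs_add_le _ _
      _ ≤ 4 * r / (r - 1) + l * (4 * r / (r - 1)) := add_le_add h1 ih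
      _ = _ := by push_cast; ring

theorem hh_scale {r c y : ℝ} (hc : 1 ≤ c) (hcr : c ≤ r) (hy : 0 < y) :
    hh (c * y) ≤ r * hh y ∧ hh y ≤ r * hh (c * y) := by
  have hc0 : 0 < c := by linarith
  have hr0 : 0 < r := by linarith
  unfold hh
  constructor
  · rw [← mul_div_assoc, div_le_div_iff₀ (by positivity) (by positivity)]
    have h1 : 1 + y ^ 2 ≤ 1 + (c * y) ^ 2 := by
      have : y ^ 2 ≤ (c * y) ^ 2 := by
        apply pow_le_pow_left₀ hy.le
        nlinarith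
      linarith
    calc 2 * (c * y) * (1 + y ^ 2) ≤ 2 * (r * y) * (1 + (c * y) ^ 2) := by
          apply mul_le_mul _ h1 (by positivity) (by positivity)
          have := mul_le_mul_of_nonneg_right hcr hy.le
          linarith
      _ = _ := by ring
  · rw [← mul_div_assoc, div_le_div_iff₀ (by positivity) (by positivity)]
    have h1 : (1 + (c * y) ^ 2) ≤ c * r * (1 + y ^ 2) := by
      have h2 : c * c ≤ c * r := mul_le_mul_of_nonneg_left hcr hc0.le
      have h3 : 1 ≤ c * r := by nlinarith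
      have h4 : c * c * y ^ 2 ≤ c * r * y ^ 2 := mul_le_mul_of_nonneg_right h2 (by positivity)
      nlinarith
    calc 2 * y * (1 + (c * y) ^ 2) ≤ 2 * y * (c * r * (1 + y ^ 2)) :=
          mul_le_mul_of_nonneg_left h1 (by positivity)
      _ = _ := by ring

theorem SS_scale {r c : ℝ} (hr : 1 < r) (hc : 1 ≤ c) (hcr : c ≤ r) {x : ℝ} (hx : 0 < x) (n : ℕ)
    {B : ℝ} (hB : ∀ x : ℝ, 0 < x → SS n r x ≤ B) :
    |SS n r (c * x) - SS n r x| ≤ (r - 1) * B := by
  have h0 : 0 < r := by linarith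
  have hc0 : 0 < c := by linarith
  have e : ∀ j i : ℕ, c * x / r ^ j * r ^ i = c * (x / r ^ j * r ^ i) := fun j i => by ring
  have h1 : SS n r (c * x) ≤ r * SS n r x := by
    unfold SS
    rw [mul_sum]
    refine sum_le_sum fun j _ => ?_
    rw [mul_sum]
    refine sum_le_sum fun i _ => ?_
    rw [e]
    exact (hh_scale hc hcr (by positivity)).1
  have h2 : SS n r x ≤ r * SS n r (c * x) := by
    unfold SS
    rw [mul_sum]
    refine sum_le_sum fun j _ => ?_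
    rw [mul_sum]
    refine sum_le_sum fun i _ => ?_
    rw [e]
    exact (hh_scale hc hcr (by positivity)).2
  have h3 := mul_le_mul_of_nonneg_left (hB x hx) (sub_nonneg.2 hr.le)
  have h4 := mul_le_mul_of_nonneg_left (hB (c * x) (by positivity)) (sub_nonneg.2 hr.le)
  rw [abs_le]
  constructor <;> linarith

theorem SS_one {M : ℕ} (hM : 0 < M) {n : ℕ} (hn : M ≤ n) :
    ((n : ℝ) - M) * (M / 3) ≤ SS n (1 + 1 / (M : ℝ)) 1 := by
  have hM0 : (0 : ℝ) < M := by exact_mod_cast hM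
  set r : ℝ := 1 + 1 / (M : ℝ) with hr
  have hr1 : 1 < r := by
    have : 0 < 1 / (M : ℝ) := by positivity
    linarith
  have h0 : 0 < r := by linarith
  have e2 : 2 / (r - 1) = 2 * M := by
    rw [hr]
    field_simp
    ring
  have key : ∀ j ∈ range n, 2 * (M : ℝ) * (gg (1 / r ^ j * r ^ n) - gg (1 / r ^ j)) ≤
      ∑ i ∈ range n, hh (1 / r ^ j * r ^ i) := fun j _ => by
    have := le_sum hr1 (y := 1 / r ^ j) (by positivity) n
    rwa [e2] at this
  have hg1 : ∀ y : ℝ, 1 ≤ y → 1 / 2 ≤ gg y := fun y hy => by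
    unfold gg
    rw [div_le_div_iff₀ (by norm_num) (by linarith)]
    linarith
  have hg2 : ∀ y : ℝ, 0 < y → y ≤ 1 → gg y ≤ 1 / 2 := fun y hy0 hy => by
    unfold gg
    rw [div_le_div_iff₀ (by linarith) (by norm_num)]
    linarith
  have hg3 : ∀ y : ℝ, 0 < y → y ≤ 1 / 2 → gg y ≤ 1 / 3 := fun y hy0 hy => by
    unfold gg
    rw [div_le_div_iff₀ (by linarith) (by norm_num)]
    linarith
  have hlow : ∀ j ∈ range n, 1 / 2 ≤ gg (1 / r ^ j * r ^ n) := fun j hj => by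
    apply hg1
    rw [one_div, ← div_eq_inv_mul, one_le_div (by positivity)]
    exact pow_le_pow_right₀ hr1.le (mem_range.1 hj).le
  have hup : ∀ j : ℕ, gg (1 / r ^ j) ≤ 1 / 2 := fun j => by
    apply hg2 _ (by positivity)
    rw [div_le_one (by positivity)]
    exact one_le_pow₀ hr1.le
  have hup' : ∀ j : ℕ, M ≤ j → gg (1 / r ^ j) ≤ 1 / 3 := fun j hj => by
    apply hg3 _ (by positivity)
    rw [div_le_div_iff₀ (by positivity) (by norm_num)]
    have h5 : (1 : ℝ) + M * (1 / M) ≤ r ^ M := by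
      rw [hr]
      apply one_add_mul_le_pow
      have : 0 < 1 / (M : ℝ) := by positivity
      linarith
    have h6 : (M : ℝ) * (1 / M) = 1 := by field_simp
    have h7 : r ^ M ≤ r ^ j := pow_le_pow_right₀ hr1.le hj
    linarith
  unfold SS
  have hsub : Ico M n ⊆ range n := fun j hj => mem_range.2 (mem_Ico.1 hj).2
  calc ((n : ℝ) - M) * (M / 3) = ∑ j ∈ Ico M n, (M : ℝ) / 3 := by
        rw [sum_const, Nat.card_Ico, nsmul_eq_mul, Nat.cast_sub hn]
    _ ≤ ∑ j ∈ Ico M n, 2 * (M : ℝ) * (gg (1 / r ^ j * r ^ n) - gg (1 / r ^ j)) := by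
        refine sum_le_sum fun j hj => ?_
        have h8 := hlow j (hsub hj)
        have h9 := hup' j (mem_Ico.1 hj).1
        have h10 : (1 : ℝ) / 6 ≤ gg (1 / r ^ j * r ^ n) - gg (1 / r ^ j) := by linarith
        calc (M : ℝ) / 3 = 2 * (M : ℝ) * (1 / 6) := by ring
          _ ≤ _ := mul_le_mul_of_nonneg_left h10 (by positivity)
    _ ≤ ∑ j ∈ range n, 2 * (M : ℝ) * (gg (1 / r ^ j * r ^ n) - gg (1 / r ^ j)) := by
        refine sum_le_sum_of_subset_of_nonneg hsub fun j hj _ => ?_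
        have h8 := hlow j hj
        have h9 := hup j
        have h10 : (0 : ℝ) ≤ gg (1 / r ^ j * r ^ n) - gg (1 / r ^ j) := by linarith
        positivity
    _ ≤ _ := sum_le_sum key

/-- The numbers. -/
def tt (N : ℕ) (i : Fin (2 * (N + 1) ^ 2)) : ℝ := ((1 + 1 / ((N + 1 : ℕ) : ℝ)) ^ (i : ℕ)) ^ 2

theorem tt_pos (N : ℕ) (i : Fin (2 * (N + 1) ^ 2)) : 0 < tt N i := by
  unfold tt; positivity

theorem Fj_eq (N : ℕ) {a : ℝ} (h0 : 0 < a) (h1 : a < 1) :
    H917R2.BP.Fj (tt N) a = (SS (2 * (N + 1) ^ 2) (1 + 1 / ((N + 1 : ℕ) : ℝ)) 1)⁻¹ *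
      SS (2 * (N + 1) ^ 2) (1 + 1 / ((N + 1 : ℕ) : ℝ)) (Real.sqrt (1 - a) / Real.sqrt a) := by
  have h2 : 0 < 1 - a := by linarith
  set r : ℝ := 1 + 1 / ((N + 1 : ℕ) : ℝ) with hr
  have hr0 : 0 < r := by positivity
  have hp : 0 < Real.sqrt a := Real.sqrt_pos.2 h0
  have hq : 0 < Real.sqrt (1 - a) := Real.sqrt_pos.2 h2
  have es : ∀ i j : Fin (2 * (N + 1) ^ 2), Real.sqrt (tt N i * tt N j) =
      r ^ (i : ℕ) * r ^ (j : ℕ) := fun i j => by
    unfold tt
    rw [← hr, ← mul_pow]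
    exact Real.sqrt_sq (by positivity)
  unfold H917R2.BP.Fj SS
  rw [sum_comm, sum_range (f := fun j => ∑ i ∈ range (2 * (N + 1) ^ 2), hh (1 / r ^ j * r ^ i)),
    sum_range (f := fun j => ∑ i ∈ range (2 * (N + 1) ^ 2),
      hh (Real.sqrt (1 - a) / Real.sqrt a / r ^ j * r ^ i))]
  congr 1
  · congr 1
    refine sum_congr rfl fun j _ => ?_
    rw [sum_range]
    refine sum_congr rfl fun i _ => ?_
    rw [es]
    unfold hh tt
    rw [← hr]
    field_simp
    ring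
  · rw [sum_comm]
    refine sum_congr rfl fun j _ => ?_
    rw [sum_range]
    refine sum_congr rfl fun i _ => ?_
    rw [es, Real.sqrt_mul h0.le]
    have ea : a = Real.sqrt a ^ 2 := (Real.sq_sqrt h0.le).symm
    have eb : 1 - a = Real.sqrt (1 - a) ^ 2 := (Real.sq_sqrt h2.le).symm
    unfold tt
    rw [← hr]
    generalize Real.sqrt a = p at *
    generalize Real.sqrt (1 - a) = q at *
    rw [eb, ea]
    unfold hh
    field_simp

theorem SS_inv {r x : ℝ} (hr : 0 < r) (hx : 0 < x) (n : ℕ) : SS n r x⁻¹ = SS n r x := by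
  unfold SS
  rw [sum_comm]
  refine sum_congr rfl fun j _ => sum_congr rfl fun i _ => ?_
  rw [← hh_inv (y := x / r ^ j * r ^ i) (by positivity)]
  congr 1
  field_simp

section bounds

variable {M : ℕ}

theorem rr_gt (hM : 0 < M) : (1 : ℝ) < 1 + 1 / (M : ℝ) := by
  have hM0 : (0 : ℝ) < M := by exact_mod_cast hM
  have : 0 < 1 / (M : ℝ) := by positivity
  linarith

theorem rr_B (hM : 0 < M) : 4 * (1 + 1 / (M : ℝ)) / (1 + 1 / (M : ℝ) - 1) ≤ 8 * M := by
  have hM0 : (1 : ℝ) ≤ M := by exact_mod_cast hM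
  have e : 4 * (1 + 1 / (M : ℝ)) / (1 + 1 / (M : ℝ) - 1) = 4 * (M + 1) := by
    have : (M : ℝ) ≠ 0 := by positivity
    field_simp
    ring
  rw [e]
  linarith

theorem SS_ub (hM : 0 < M) {x : ℝ} (hx : 0 < x) :
    SS (2 * M ^ 2) (1 + 1 / (M : ℝ)) x ≤ 16 * (M : ℝ) ^ 3 := by
  have h1 := SS_le (rr_gt hM) hx (2 * M ^ 2)
  have h2 := mul_le_mul_of_nonneg_left (rr_B hM) (Nat.cast_nonneg (α := ℝ) (2 * M ^ 2))
  calc _ ≤ _ := h1
    _ ≤ _ := h2
    _ = _ := by push_cast; ring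

theorem SS_lb (hM : 0 < M) :
    (M : ℝ) ^ 3 / 3 ≤ SS (2 * M ^ 2) (1 + 1 / (M : ℝ)) 1 := by
  have hM0 : (1 : ℝ) ≤ M := by exact_mod_cast hM
  have h1 := SS_one hM (n := 2 * M ^ 2) (by nlinarith)
  refine le_trans ?_ h1
  push_cast
  have h2 : (M : ℝ) ≤ M ^ 2 := by nlinarith
  have h3 : (M : ℝ) ^ 2 ≤ 2 * M ^ 2 - M := by linarith
  calc (M : ℝ) ^ 3 / 3 = M ^ 2 * (M / 3) := by ring
    _ ≤ _ := mul_le_mul_of_nonneg_right h3 (by positivity)

theorem SS_sub (hM : 0 < M) {x : ℝ} (hx : 1 ≤ x) :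
    |SS (2 * M ^ 2) (1 + 1 / (M : ℝ)) x - SS (2 * M ^ 2) (1 + 1 / (M : ℝ)) 1| ≤
      24 * (M : ℝ) ^ 2 * x := by
  have hM0 : (1 : ℝ) ≤ M := by exact_mod_cast hM
  have hr := rr_gt hM
  obtain ⟨l, hl1, hl2⟩ := exists_nat_pow_near hx hr
  set r : ℝ := 1 + 1 / (M : ℝ) with hrr
  have h0 : 0 < r := by linarith
  have hp : 0 < r ^ l := by positivity
  have hc1 : 1 ≤ x / r ^ l := by rwa [one_le_div hp]
  have hc2 : x / r ^ l ≤ r := by
    rw [div_le_iff₀ hp, mul_comm, ← pow_succ]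
    exact hl2.le
  have h1 := SS_scale hr hc1 hc2 hp (2 * M ^ 2) (B := 16 * (M : ℝ) ^ 3)
    (fun y hy => SS_ub hM hy)
  have e1 : x / r ^ l * r ^ l = x := by field_simp
  rw [e1] at h1
  have h2 := SS_pow hr (2 * M ^ 2) l
  have h3 := mul_le_mul_of_nonneg_left (rr_B hM) (Nat.cast_nonneg (α := ℝ) l)
  rw [← hrr] at h3
  have h4 : 1 + (l : ℝ) * (1 / M) ≤ r ^ l := by
    rw [hrr]
    apply one_add_mul_le_pow
    have : 0 < 1 / (M : ℝ) := by positivity
    linarith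
  have h5 : (l : ℝ) ≤ M * (x - 1) := by
    have h6 : (l : ℝ) * (1 / M) ≤ x - 1 := by linarith
    have h7 := mul_le_mul_of_nonneg_left h6 (by linarith : (0 : ℝ) ≤ M)
    have h8 : (M : ℝ) * (l * (1 / M)) = l := by field_simp
    rwa [h8] at h7
  have e2 : (r - 1) * (16 * (M : ℝ) ^ 3) = 16 * M ^ 2 := by
    rw [hrr]
    field_simp
    ring
  rw [e2] at h1
  have h9 : (l : ℝ) * (8 * M) ≤ M * (x - 1) * (8 * M) :=
    mul_le_mul_of_nonneg_right h5 (by positivity)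
  have h10 : SS (2 * M ^ 2) r x - SS (2 * M ^ 2) r 1 =
    (SS (2 * M ^ 2) r x - SS (2 * M ^ 2) r (r ^ l)) +
      (SS (2 * M ^ 2) r (r ^ l) - SS (2 * M ^ 2) r 1) := by ring
  rw [h10]
  have h11 : (M : ℝ) ^ 2 * 1 ≤ M ^ 2 * x := mul_le_mul_of_nonneg_left hx (by positivity)
  calc _ ≤ |SS (2 * M ^ 2) r x - SS (2 * M ^ 2) r (r ^ l)| +
      |SS (2 * M ^ 2) r (r ^ l) - SS (2 * M ^ 2) r 1| := abs_add_le _ _
    _ ≤ 16 * M ^ 2 + M * (x - 1) * (8 * M) := by linarith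
    _ ≤ 24 * (M : ℝ) ^ 2 * x := by nlinarith

end bounds

theorem SS1_pos (N : ℕ) :
    0 < SS (2 * (N + 1) ^ 2) (1 + 1 / ((N + 1 : ℕ) : ℝ)) 1 :=
  lt_of_lt_of_le (by positivity) (SS_lb (Nat.succ_pos N))

/-- The bound for `a ≤ 1/2`. -/
theorem bd_half (N : ℕ) {a : ℝ} (h0 : 0 < a) (h1 : a ≤ 1 / 2) :
    |H917R2.BP.Fj (tt N) a - 1| * (a * (1 - a)) ≤ 72 / ((N + 1 : ℕ) : ℝ) := by
  have hN0 : (0 : ℝ) < ((N + 1 : ℕ) : ℝ) := by positivity
  rw [Fj_eq N h0 (by linarith)]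
  have hlb := SS_lb (Nat.succ_pos N)
  have hpos := SS1_pos N
  have h2 : 0 < 1 - a := by linarith
  have hp : 0 < Real.sqrt a := Real.sqrt_pos.2 h0
  have hq : 0 < Real.sqrt (1 - a) := Real.sqrt_pos.2 h2
  have hx : 1 ≤ Real.sqrt (1 - a) / Real.sqrt a := by
    rw [one_le_div hp]
    exact Real.sqrt_le_sqrt (by linarith)
  have hsub := SS_sub (Nat.succ_pos N) hx
  have ea : a = Real.sqrt a ^ 2 := (Real.sq_sqrt h0.le).symm
  have eb : 1 - a = Real.sqrt (1 - a) ^ 2 := (Real.sq_sqrt h2.le).symm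
  have ep : Real.sqrt a ≤ 1 := by
    rw [Real.sqrt_le_left (by norm_num)]
    linarith
  have eq : Real.sqrt (1 - a) ≤ 1 := by
    rw [Real.sqrt_le_left (by norm_num)]
    linarith
  have eab : Real.sqrt (1 - a) / Real.sqrt a * (a * (1 - a)) ≤ 1 := by
    have e1 : Real.sqrt (1 - a) / Real.sqrt a * (a * (1 - a)) =
        Real.sqrt a * Real.sqrt (1 - a) ^ 3 := by
      have e2 : a * (1 - a) = Real.sqrt a ^ 2 * Real.sqrt (1 - a) ^ 2 := by
        rw [Real.sq_sqrt h0.le, Real.sq_sqrt h2.le]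
      rw [e2]
      field_simp
    rw [e1]
    have e3 : Real.sqrt (1 - a) ^ 3 ≤ 1 := pow_le_one₀ hq.le eq
    calc _ ≤ 1 * 1 := mul_le_mul ep e3 (by positivity) (by norm_num)
      _ = 1 := by norm_num
  set S1 := SS (2 * (N + 1) ^ 2) (1 + 1 / ((N + 1 : ℕ) : ℝ)) 1 with hS1
  set Sx := SS (2 * (N + 1) ^ 2) (1 + 1 / ((N + 1 : ℕ) : ℝ))
    (Real.sqrt (1 - a) / Real.sqrt a) with hSx
  set x := Real.sqrt (1 - a) / Real.sqrt a with hxx
  set m : ℝ := ((N + 1 : ℕ) : ℝ) with hm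
  have e3 : S1⁻¹ * Sx - 1 = (Sx - S1) / S1 := by
    field_simp
  rw [e3, abs_div, abs_of_pos hpos]
  have h3 : |Sx - S1| / S1 ≤ 24 * m ^ 2 * x / (m ^ 3 / 3) :=
    div_le_div₀ (by positivity) hsub (by positivity) hlb
  have h4 : 24 * m ^ 2 * x / (m ^ 3 / 3) = 72 / m * x := by
    field_simp
    ring
  rw [h4] at h3
  have h5 : 0 ≤ a * (1 - a) := by positivity
  calc _ ≤ 72 / m * x * (a * (1 - a)) := mul_le_mul_of_nonneg_right h3 h5
    _ = 72 / m * (x * (a * (1 - a))) := by ring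
    _ ≤ 72 / m * 1 := mul_le_mul_of_nonneg_left eab (by positivity)
    _ = _ := mul_one _

theorem Fj_symm (N : ℕ) {a : ℝ} (h0 : 0 < a) (h1 : a < 1) :
    H917R2.BP.Fj (tt N) (1 - a) = H917R2.BP.Fj (tt N) a := by
  rw [Fj_eq N h0 h1, Fj_eq N (by linarith : 0 < 1 - a) (by linarith)]
  have e : 1 - (1 - a) = a := by ring
  rw [e]
  have hp : 0 < Real.sqrt a := Real.sqrt_pos.2 h0
  have hq : 0 < Real.sqrt (1 - a) := Real.sqrt_pos.2 (by linarith)
  rw [← SS_inv (r := 1 + 1 / ((N + 1 : ℕ) : ℝ)) (x := Real.sqrt a / Real.sqrt (1 - a))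
    (by positivity) (by positivity), inv_div]

theorem bd (N : ℕ) {a : ℝ} (h0 : 0 ≤ a) (h1 : a ≤ 1) :
    |H917R2.BP.Fj (tt N) a - 1| * (a * (1 - a)) ≤ 72 / ((N + 1 : ℕ) : ℝ) := by
  rcases h0.eq_or_lt with rfl | h0
  · rw [zero_mul, mul_zero]
    positivity
  rcases h1.eq_or_lt with rfl | h1
  · rw [sub_self, mul_zero, mul_zero]
    positivity
  rcases le_total a (1 / 2) with h2 | h2
  · exact bd_half N h0 h2
  · have h3 := bd_half N (a := 1 - a) (by linarith) (by linarith)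
    rw [Fj_symm N h0 h1] at h3
    have e : (1 - a) * (1 - (1 - a)) = a * (1 - a) := by ring
    rwa [e] at h3

theorem Fj_bd (N : ℕ) {a : ℝ} (h0 : 0 ≤ a) (h1 : a ≤ 1) :
    |H917R2.BP.Fj (tt N) a| ≤ 48 := by
  have hz : a * (1 - a) = 0 → |H917R2.BP.Fj (tt N) a| ≤ 48 := fun h => by
    have : H917R2.BP.Fj (tt N) a = 0 := by
      unfold H917R2.BP.Fj
      rw [h, Real.sqrt_zero]
      simp
    rw [this, abs_zero]
    norm_num
  rcases h0.eq_or_lt with rfl | h0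
  · exact hz (by simp)
  rcases h1.eq_or_lt with rfl | h1
  · exact hz (by simp)
  have hp : 0 < Real.sqrt a := Real.sqrt_pos.2 h0
  have hq : 0 < Real.sqrt (1 - a) := Real.sqrt_pos.2 (by linarith)
  have hx : 0 < Real.sqrt (1 - a) / Real.sqrt a := by positivity
  rw [Fj_eq N h0 h1]
  have h2 := SS_nonneg (rr_gt (Nat.succ_pos N)) hx (2 * (N + 1) ^ 2)
  have h3 := SS_ub (Nat.succ_pos N) hx
  have h4 := SS_lb (Nat.succ_pos N)
  have h5 := SS1_pos N
  have hN0 : (0 : ℝ) < ((N + 1 : ℕ) : ℝ) := by positivity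
  rw [abs_of_nonneg (mul_nonneg (inv_nonneg.2 h5.le) h2), inv_mul_eq_div]
  calc _ ≤ 16 * ((N + 1 : ℕ) : ℝ) ^ 3 / (((N + 1 : ℕ) : ℝ) ^ 3 / 3) :=
        div_le_div₀ (by positivity) h3 (by positivity) h4
    _ = 48 := by
        field_simp
        norm_num

theorem t_fej : H917R2.BP.S_fej := by
  refine ⟨fun N => 2 * (N + 1) ^ 2, tt, 48, fun N => by positivity, tt_pos,
    fun N a h0 h1 => Fj_bd N h0 h1, fun ε hε => ?_⟩
  have h := tendsto_const_div_atTop_nhds_zero_nat (72 : ℝ)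
  have h2 := (h.comp (tendsto_add_atTop_nat 1)).eventually (gt_mem_nhds hε)
  filter_upwards [h2] with N hN a h0 h1
  exact (bd N h0 h1).trans (le_of_lt hN)

end H318R5.BP
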