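import Pool.Agent.H917R2.BP.Stm

set_option autoImplicit false

/-!
Existence of `K ⊗ conj K` (`S_ten`): the space `ℓ²(ι; K)` for a Hilbert basis `e` of `K` indexed by
`ι`, with `t a b = (conj ⟪e j, b⟫ • a)_j`.
-/

open scoped InnerProductSpace ComplexConjugate lp ENNReal
open Filter

noncomputable section

namespace H318R5.BP

open H917R2.BP

section ten

variable {ι K : Type} [NormedAddCommGroup K] [InnerProductSpace ℂ K] [CompleteSpace K]
  (e : HilbertBasis ι ℂ K)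

/-- The elementary tensors. -/
def tt0 (a b : K) : lp (fun _ : ι => K) 2 :=
  ⟨fun j => ⟪b, e j⟫_ℂ • a, by
    apply memℓp_gen
    have h := e.orthonormal.inner_products_summable b
    have h2 := h.mul_right (‖a‖ ^ 2)
    refine h2.congr fun j => ?_
    have : ((2 : ℝ≥0∞)).toReal = ((2 : ℕ) : ℝ) := by simp
    rw [this, Real.rpow_natCast, norm_smul, mul_pow, norm_inner_symm b]⟩

theorem tt0_apply (a b : K) (j : ι) : (tt0 e a b : ∀ _ : ι, K) j = ⟪b, e j⟫_ℂ • a := rfl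

theorem inner_tt0 (a b : K) (h : lp (fun _ : ι => K) 2) :
    ⟪tt0 e a b, h⟫_ℂ = ∑' j, ⟪e j, b⟫_ℂ * ⟪a, (h : ∀ _ : ι, K) j⟫_ℂ := by
  rw [lp.inner_eq_tsum]
  refine tsum_congr fun j => ?_
  rw [tt0_apply, inner_smul_left, inner_conj_symm]

theorem inn0 (a b c d : K) : ⟪tt0 e a b, tt0 e c d⟫_ℂ = ⟪a, c⟫_ℂ * ⟪d, b⟫_ℂ := by
  rw [inner_tt0]
  have h : ∀ j, ⟪e j, b⟫_ℂ * ⟪a, (tt0 e c d : ∀ _ : ι, K) j⟫_ℂ =
      ⟪a, c⟫_ℂ * (⟪d, e j⟫_ℂ * ⟪e j, b⟫_ℂ) := fun j => by
    rw [tt0_apply, inner_smul_right]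
    ring
  rw [tsum_congr h, tsum_mul_left, e.tsum_inner_mul_inner]

theorem inner_basis (i j : ι) (h : lp (fun _ : ι => K) 2) :
    ⟪tt0 e (e i) (e j), h⟫_ℂ = ⟪e i, (h : ∀ _ : ι, K) j⟫_ℂ := by
  classical
  rw [inner_tt0, tsum_eq_single j]
  · rw [orthonormal_iff_ite.1 e.orthonormal, if_pos rfl, one_mul]
  · intro k hk
    rw [orthonormal_iff_ite.1 e.orthonormal, if_neg hk, zero_mul]

theorem eq_zero_of (h : lp (fun _ : ι => K) 2) (hh : ∀ i j, ⟪tt0 e (e i) (e j), h⟫_ℂ = 0) :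
    h = 0 := by
  ext j
  rw [lp.coeFn_zero, Pi.zero_apply]
  have h1 : ∀ i, ⟪e i, (h : ∀ _ : ι, K) j⟫_ℂ = 0 := fun i => by rw [← inner_basis, hh]
  have h2 : e.repr ((h : ∀ _ : ι, K) j) = 0 := by
    ext i
    rw [e.repr_apply_apply, h1]
    rfl
  exact (map_eq_zero_iff e.repr e.repr.injective).1 h2

theorem orth0 : Orthonormal ℂ (fun p : ι × ι => tt0 e (e p.1) (e p.2)) := by
  classical
  rw [orthonormal_iff_ite]
  rintro ⟨i, j⟩ ⟨k, l⟩
  rw [inn0, orthonormal_iff_ite.1 e.orthonormal, orthonormal_iff_ite.1 e.orthonormal]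
  by_cases h1 : i = k
  · by_cases h2 : j = l
    · subst h1 h2
      simp
    · have h3 : ¬ (l = j) := fun h => h2 h.symm
      simp [h2, h3]
  · simp [h1]

theorem orth1 : Orthonormal ℂ (fun p : ι × ι => tt0 e (e p.2) (e p.1)) :=
  (orth0 e).comp (fun p : ι × ι => (p.2, p.1)) fun p q h => by
    have h' : (p.2, p.1) = (q.2, q.1) := h
    rw [Prod.mk.injEq] at h'
    exact Prod.ext h'.2 h'.1

/-- Basis. -/
def B0 : HilbertBasis (ι × ι) ℂ (lp (fun _ : ι => K) 2) :=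
  HilbertBasis.mkOfOrthogonalEqBot (orth0 e) (by
    rw [eq_bot_iff]
    intro h hh
    rw [Submodule.mem_bot]
    refine eq_zero_of e h fun i j => ?_
    exact (Submodule.mem_orthogonal _ _).1 hh _ (Submodule.subset_span ⟨(i, j), rfl⟩))

/-- Swapped basis. -/
def B1 : HilbertBasis (ι × ι) ℂ (lp (fun _ : ι => K) 2) :=
  HilbertBasis.mkOfOrthogonalEqBot (orth1 e) (by
    rw [eq_bot_iff]
    intro h hh
    rw [Submodule.mem_bot]
    refine eq_zero_of e h fun i j => ?_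
    exact (Submodule.mem_orthogonal _ _).1 hh _ (Submodule.subset_span ⟨(j, i), rfl⟩))

theorem B0_apply (p : ι × ι) : B0 e p = tt0 e (e p.1) (e p.2) := by
  unfold B0
  rw [HilbertBasis.coe_mkOfOrthogonalEqBot]

theorem B1_apply (p : ι × ι) : B1 e p = tt0 e (e p.2) (e p.1) := by
  unfold B1
  rw [HilbertBasis.coe_mkOfOrthogonalEqBot]

/-- The conjugation. -/
def J0 : lp (fun _ : ι => K) 2 ≃ₗᵢ⋆[ℂ] lp (fun _ : ι => K) 2 :=
  ((B0 e).repr.trans (starₗᵢ ℂ)).trans (B1 e).repr.symm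

theorem J0_t (a b : K) : J0 e (tt0 e a b) = tt0 e b a := by
  have h : star ((B0 e).repr (tt0 e a b)) = (B1 e).repr (tt0 e b a) := by
    ext p
    rw [lp.star_apply, HilbertBasis.repr_apply_apply, HilbertBasis.repr_apply_apply, B0_apply,
      B1_apply, inn0, inn0, star_mul']
    simp only [RCLike.star_def, inner_conj_symm]
    ring
  have h2 : J0 e (tt0 e a b) = (B1 e).repr.symm (star ((B0 e).repr (tt0 e a b))) := rfl
  rw [h2, h, LinearIsometryEquiv.symm_apply_apply]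

variable (ι) in
/-- Diagonal action. -/
def L0 (x : BH K) : BH (lp (fun _ : ι => K) 2) :=
  lp.mapCLM 2 (fun _ => x) (norm_nonneg x) fun _ => le_rfl

theorem L0_apply (x : BH K) (h : lp (fun _ : ι => K) 2) (j : ι) :
    (L0 ι x h : ∀ _ : ι, K) j = x ((h : ∀ _ : ι, K) j) := rfl

variable (ι K) in
/-- Diagonal action as a star homomorphism. -/
def L1 : BH K →⋆ₐ[ℂ] BH (lp (fun _ : ι => K) 2) where
  toFun := L0 ι
  map_one' := by
    ext h j
    rfl
  map_mul' x y := by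
    ext h j
    rfl
  map_zero' := by
    ext h j
    rfl
  map_add' x y := by
    ext h j
    rfl
  commutes' c := by
    ext h j
    rw [L0_apply]
    rfl
  map_star' x := by
    rw [ContinuousLinearMap.star_eq_adjoint (L0 ι x), ContinuousLinearMap.eq_adjoint_iff]
    intro g h
    rw [lp.inner_eq_tsum, lp.inner_eq_tsum]
    refine tsum_congr fun j => ?_
    rw [L0_apply, L0_apply, ContinuousLinearMap.star_eq_adjoint,
      ContinuousLinearMap.adjoint_inner_left]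

theorem dense0 : (Submodule.span ℂ (Set.range fun p : K × K => tt0 e p.1 p.2)).topologicalClosure =
    ⊤ := by
  rw [Submodule.topologicalClosure_eq_top_iff, eq_bot_iff]
  intro h hh
  rw [Submodule.mem_bot]
  refine eq_zero_of e h fun i j => ?_
  exact (Submodule.mem_orthogonal _ _).1 hh _ (Submodule.subset_span ⟨(e i, e j), rfl⟩)

/-- The tensor product. -/
def ten0 : Ten K (lp (fun _ : ι => K) 2) where
  t := tt0 e
  inn := inn0 e
  dense := dense0 e
  L := L1 ι K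
  L_t x a b := by
    ext j
    change x (⟪b, e j⟫_ℂ • a) = ⟪b, e j⟫_ℂ • x a
    rw [map_smul]
  J := J0 e
  J_t := J0_t e

end ten

theorem t_ten : S_ten := by
  intro K _ _ _
  obtain ⟨w, e, -⟩ := exists_hilbertBasis ℂ K
  exact ⟨lp (fun _ : w => K) 2, inferInstance, inferInstance, inferInstance, ⟨ten0 e⟩⟩

end H318R5.BP
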